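import Pool.Agent.K3h34.BF.Stm

/-!
# From the slice to the cone (Gamma factors)
-/

set_option autoImplicit false

namespace Pool.Agent.K3h33.BF

open MvPolynomial
open Pool.Agent.K3h34.BF

/-- the functional on the cone -/
noncomputable def Lam (n N : ℕ) (T : ℝ → (Rc n →ₗ[ℂ] ℂ)) (s : ℝ) : Rc n →ₗ[ℂ] ℂ :=
  (MvPolynomial.basisMonomials (Fin (n + 1)) ℂ).constr ℂ
    (fun e => Complex.Gamma ((N : ℂ) * s + (e.degree : ℕ) + n + 1) * T s (monomial e 1))

lemma Lam_hom (n N : ℕ) (T : ℝ → (Rc n →ₗ[ℂ] ℂ)) (s : ℝ) (D : ℕ) (g : Rc n)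
    (hg : g.IsHomogeneous D) :
    Lam n N T s g = Complex.Gamma ((N : ℂ) * s + D + n + 1) * T s g := by
  have h1 : ∀ e ∈ g.support, Lam n N T s (monomial e (coeff e g)) =
      Complex.Gamma ((N : ℂ) * s + D + n + 1) * T s (monomial e (coeff e g)) := by
    intro e he
    have h2 : e.degree = D := by
      have := hg (mem_support_iff.1 he)
      rw [Finsupp.degree_eq_weight_one]
      exact this
    have h3 : (monomial e (coeff e g) : Rc n) = coeff e g • monomial e 1 := by
      rw [smul_monomial, smul_eq_mul, mul_one]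
    have h4 : Lam n N T s (monomial e 1) =
        Complex.Gamma ((N : ℂ) * s + D + n + 1) * T s (monomial e 1) := by
      have h5 := (MvPolynomial.basisMonomials (Fin (n + 1)) ℂ).constr_basis ℂ
        (fun e => Complex.Gamma ((N : ℂ) * s + (e.degree : ℕ) + n + 1) * T s (monomial e 1)) e
      rw [MvPolynomial.coe_basisMonomials] at h5
      rw [Lam, h5, h2]
    rw [h3, map_smul, map_smul, h4, smul_eq_mul, smul_eq_mul]
    ring
  conv_lhs => rw [g.as_sum, map_sum]
  conv_rhs => rw [g.as_sum, map_sum, Finset.mul_sum]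
  exact Finset.sum_congr rfl h1

lemma ext_hom {n : ℕ} (A B : Rc n →ₗ[ℂ] ℂ)
    (h : ∀ (D : ℕ) (g : Rc n), g.IsHomogeneous D → A g = B g) (g : Rc n) : A g = B g := by
  rw [← sum_homogeneousComponent g, map_sum, map_sum]
  exact Finset.sum_congr rfl fun i _ => h i _ (homogeneousComponent_isHomogeneous i g)

/-- the operator of the integration by parts -/
noncomputable def Op {n : ℕ} (f : Rc n) (c : ℂ) (j : Fin (n + 1)) : Rc n →ₗ[ℂ] Rc n :=
  (LinearMap.mulLeft ℂ f).comp (pderiv j : Derivation ℂ (Rc n) (Rc n)).toLinearMap +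
    LinearMap.mulLeft ℂ (C c * pderiv j f)

lemma Op_apply {n : ℕ} (f : Rc n) (c : ℂ) (j : Fin (n + 1)) (g : Rc n) :
    Op f c j g = f * pderiv j g + C c * pderiv j f * g := rfl

lemma Op_hom {n N D : ℕ} {f g : Rc n} (hN : 1 ≤ N) (hf : f.IsHomogeneous N)
    (hg : g.IsHomogeneous D) (c : ℂ) (j : Fin (n + 1)) :
    (Op f c j g).IsHomogeneous (N + D - 1) := by
  rw [Op_apply]
  refine IsHomogeneous.add ?_ ?_
  · rcases Nat.eq_zero_or_pos D with rfl | hD
    · have h1 : pderiv j g = 0 := by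
        obtain ⟨a, rfl⟩ : ∃ a, g = C a := ⟨coeff 0 g, (totalDegree_eq_zero_iff_eq_C.1
          (by
            rcases eq_or_ne g 0 with h | h
            · rw [h, totalDegree_zero]
            · exact hg.totalDegree h))⟩
        exact pderiv_C
      rw [h1, mul_zero]
      exact isHomogeneous_zero _ _ _
    · have h1 := hf.mul (hg.pderiv (i := j))
      rwa [show N + (D - 1) = N + D - 1 by omega] at h1
  · have h1 := ((hf.pderiv (i := j)).C_mul c).mul hg
    rwa [show N - 1 + D = N + D - 1 by omega] at h1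

lemma key {n N D : ℕ} {f g : Rc n} {T : ℝ → (Rc n →ₗ[ℂ] ℂ)} (hf : f.IsHomogeneous N)
    (hT : IsSl n f T) (hg : g.IsHomogeneous D) {s : ℝ} (hs : 0 < s) :
    T s (Op f ((s : ℂ) + 1) (Fin.last n) g) =
      ((N : ℂ) * (s + 1) + D + n) * T s (f * g) := by
  obtain ⟨h1, h2, h3⟩ := hT
  rw [← h2 s hs]
  have e1 := hf.sum_X_mul_pderiv
  have e2 := hg.sum_X_mul_pderiv
  rw [Fin.sum_univ_castSucc] at e1 e2
  have e3 : (X (Fin.last n) : Rc n) * Op f ((s : ℂ) + 1) (Fin.last n) g =
      ((N : ℂ) * (s + 1) + D) • (f * g) -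
        ∑ j : Fin n, (f * (X j.castSucc * pderiv j.castSucc g) +
          C ((s : ℂ) + 1) * pderiv j.castSucc f * (X j.castSucc * g)) := by
    have e4 : ∑ j : Fin n, (f * (X j.castSucc * pderiv j.castSucc g) +
          C ((s : ℂ) + 1) * pderiv j.castSucc f * (X j.castSucc * g)) =
        f * ∑ j : Fin n, X j.castSucc * pderiv j.castSucc g +
          C ((s : ℂ) + 1) * g * ∑ j : Fin n, X j.castSucc * pderiv j.castSucc f := by
      rw [Finset.sum_add_distrib, Finset.mul_sum, Finset.mul_sum]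
      congr 1
      exact Finset.sum_congr rfl fun j _ => by ring
    have e5 : ((N : ℂ) * (s + 1) + D) • (f * g) = (C ((s : ℂ) + 1) * (N • f)) * g +
        f * (D • g) := by
      rw [smul_eq_C_mul, nsmul_eq_mul, nsmul_eq_mul]
      simp only [map_add, map_mul, map_natCast]
      ring
    rw [e4, e5, ← e1, ← e2, Op_apply]
    ring
  have e6 : ∀ j : Fin n, T s (f * (X j.castSucc * pderiv j.castSucc g) +
          C ((s : ℂ) + 1) * pderiv j.castSucc f * (X j.castSucc * g)) = - T s (f * g) := by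
    intro j
    have h4 := h3 s hs j (X j.castSucc * g)
    have h5 : f * pderiv j.castSucc (X j.castSucc * g) +
        C ((s : ℂ) + 1) * pderiv j.castSucc f * (X j.castSucc * g) = f * g +
        (f * (X j.castSucc * pderiv j.castSucc g) +
          C ((s : ℂ) + 1) * pderiv j.castSucc f * (X j.castSucc * g)) := by
      rw [Derivation.leibniz, pderiv_X_self]
      simp only [smul_eq_mul]
      ring
    rw [h5, map_add] at h4
    linear_combination h4
  rw [e3, map_sub, map_smul, map_sum, Finset.sum_congr rfl fun j _ => e6 j, Finset.sum_const,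
    Finset.card_univ, Fintype.card_fin, smul_eq_mul, nsmul_eq_mul]
  ring

lemma rule1 {n N : ℕ} {f : Rc n} {T : ℝ → (Rc n →ₗ[ℂ] ℂ)} (hf : f.IsHomogeneous N)
    (hT : IsSl n f T) {s : ℝ} (hs : 0 < s) (g : Rc n) :
    Lam n N T s (f * g) = Lam n N T (s + 1) g := by
  have h := ext_hom ((Lam n N T s).comp (LinearMap.mulLeft ℂ f)) (Lam n N T (s + 1)) (by
    intro D g hg
    rw [LinearMap.comp_apply, LinearMap.mulLeft_apply, Lam_hom n N T s _ _ (hf.mul hg),
      Lam_hom n N T _ _ _ hg, hT.1 s hs]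
    congr 2
    push_cast
    ring) g
  rw [LinearMap.comp_apply, LinearMap.mulLeft_apply] at h
  exact h

lemma rule2 {n N : ℕ} {f : Rc n} {T : ℝ → (Rc n →ₗ[ℂ] ℂ)} (hN : 1 ≤ N) (hf : f.IsHomogeneous N)
    (hT : IsSl n f T) {s : ℝ} (hs : 0 < s) (j : Fin n) (g : Rc n) :
    Lam n N T s (Op f ((s : ℂ) + 1) j.castSucc g) = 0 := by
  have h := ext_hom ((Lam n N T s).comp (Op f ((s : ℂ) + 1) j.castSucc)) 0 (by
    intro D g hg
    rw [LinearMap.comp_apply, Lam_hom n N T s _ _ (Op_hom hN hf hg _ j.castSucc), Op_apply,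
      hT.2.2 s hs j g, mul_zero, LinearMap.zero_apply]) g
  rw [LinearMap.comp_apply, LinearMap.zero_apply] at h
  exact h

lemma rule3 {n N : ℕ} {f : Rc n} {T : ℝ → (Rc n →ₗ[ℂ] ℂ)} (hN : 1 ≤ N) (hf : f.IsHomogeneous N)
    (hT : IsSl n f T) {s : ℝ} (hs : 0 < s) (g : Rc n) :
    Lam n N T s (Op f ((s : ℂ) + 1) (Fin.last n) g) = Lam n N T (s + 1) g := by
  have h := ext_hom ((Lam n N T s).comp (Op f ((s : ℂ) + 1) (Fin.last n)))
    (Lam n N T (s + 1)) (by
    intro D g hg
    rw [LinearMap.comp_apply, Lam_hom n N T s _ _ (Op_hom hN hf hg _ (Fin.last n)),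
      key hf hT hg hs, Lam_hom n N T _ _ _ hg, hT.1 s hs]
    have hz : ((N : ℂ) * (s + 1) + D + n) ≠ 0 := by
      have h1 : ((N : ℂ) * (s + 1) + D + n) = (((N : ℝ) * (s + 1) + D + n : ℝ) : ℂ) := by
        push_cast
        ring
      rw [h1, Complex.ofReal_ne_zero]
      have h2 : (1 : ℝ) ≤ N := by exact_mod_cast hN
      positivity
    have h3 := Complex.Gamma_add_one _ hz
    have e1 : ((N : ℂ) * ((s + 1 : ℝ) : ℂ) + D + n + 1) = ((N : ℂ) * (s + 1) + D + n) + 1 := by
      push_cast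
      ring
    have e2 : ((N : ℂ) * s + ((N + D - 1 : ℕ) : ℂ) + n + 1) = ((N : ℂ) * (s + 1) + D + n) := by
      rw [Nat.cast_sub (by omega)]
      push_cast
      ring
    rw [e1, h3, e2]
    ring) g
  rw [LinearMap.comp_apply] at h
  exact h

theorem t_Gam : StmGam := by
  intro n N f T hN hf hT
  refine ⟨Lam n N T, ⟨fun s hs g => rule1 hf hT hs g, fun s hs j g => ?_⟩,
    fun s D g _ hg => Lam_hom n N T s D g hg⟩
  rw [← Op_apply]
  beta_reduce
  rcases Fin.eq_castSucc_or_eq_last j with ⟨i, rfl⟩ | rfl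
  · rw [if_neg (Fin.castSucc_lt_last i).ne, zero_mul, map_zero]
    exact rule2 hN hf hT hs i g
  · rw [if_pos rfl, one_mul]
    exact rule3 hN hf hT hs g

end Pool.Agent.K3h33.BF
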